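import Pool.Agent.Y248.SW.KerB

set_option autoImplicit false

/-!
Band-limited kernels (powers of the sine kernel) and helper745's P_KER.
-/

namespace Pool.Agent.Y248.SW

open Filter Topology MeasureTheory Complex Set
open Pool.Agent.Y745.SW (VF Wf P_KER)
open scoped FourierTransform

noncomputable section

/-- the Fourier transform at complex points -/
def FT (β : ℝ → ℝ) (z : ℂ) : ℂ := ∫ ξ : ℝ, (β ξ : ℂ) * cexp (I * ξ * z)

/-- even integrable functions supported in `[-r, r]` -/
structure Gd (r : ℝ) (β : ℝ → ℝ) : Prop where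
  int : Integrable β
  supp : ∀ ξ, r ≤ |ξ| → β ξ = 0
  even : ∀ ξ, β (-ξ) = β ξ

theorem norm_cexp (ξ : ℝ) (z : ℂ) : ‖cexp (I * ξ * z)‖ = Real.exp (-(ξ * z.im)) := by
  rw [Complex.norm_exp]
  congr 1
  simp [Complex.mul_re, Complex.mul_im]

theorem Gd.int_exp {r : ℝ} {β : ℝ → ℝ} (h : Gd r β) (z : ℂ) :
    Integrable (fun ξ : ℝ => (β ξ : ℂ) * cexp (I * ξ * z)) := by
  have h1 : Integrable (fun ξ : ℝ => ‖β ξ‖ * Real.exp (r * |z.im|)) := h.int.norm.mul_const _
  refine h1.mono' ?_ ?_
  · apply AEStronglyMeasurable.mul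
    · exact continuous_ofReal.comp_aestronglyMeasurable h.int.1
    · apply Continuous.aestronglyMeasurable; fun_prop
  · refine Eventually.of_forall fun ξ => ?_
    rw [norm_mul, norm_cexp, Complex.norm_real]
    by_cases hξ : r ≤ |ξ|
    · rw [h.supp ξ hξ]; simp
    · apply mul_le_mul_of_nonneg_left _ (norm_nonneg _)
      apply Real.exp_le_exp.2
      calc -(ξ * z.im) ≤ |ξ * z.im| := neg_le_abs _
        _ = |ξ| * |z.im| := abs_mul _ _
        _ ≤ r * |z.im| := by
            apply mul_le_mul_of_nonneg_right (not_le.1 hξ).le (abs_nonneg _)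

theorem Gd.im_zero {r : ℝ} {β : ℝ → ℝ} (h : Gd r β) (x : ℝ) : (FT β x).im = 0 := by
  rw [← Complex.conj_eq_iff_im]
  unfold FT
  rw [← integral_conj, ← integral_neg_eq_self]
  refine integral_congr_ae (Eventually.of_forall fun ξ => ?_)
  simp only [map_mul, Complex.conj_ofReal, h.even, ← Complex.exp_conj, Complex.conj_I]
  congr 2
  push_cast
  ring

/-- the averaging operator -/
def av (α : ℝ) (β : ℝ → ℝ) (ξ : ℝ) : ℝ := (1 / (2 * α)) * ∫ η in (ξ - α)..(ξ + α), β η

/-- the uniform density -/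
def ub (α : ℝ) : ℝ → ℝ := indicator (Ioo (-α) α) (fun _ => 1 / (2 * α))

theorem ub_gd (α : ℝ) (_hα : 0 < α) : Gd α (ub α) where
  int := by
    rw [ub, integrable_indicator_iff measurableSet_Ioo]
    exact integrableOn_const (by simp)
  supp ξ hξ := by
    rw [ub, indicator_of_notMem]
    rintro ⟨h1, h2⟩
    exact absurd hξ (not_le.2 (abs_lt.2 ⟨h1, h2⟩))
  even ξ := by
    unfold ub
    by_cases h : ξ ∈ Ioo (-α) α
    · have h' : -ξ ∈ Ioo (-α) α := ⟨by linarith [h.2], by linarith [h.1]⟩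
      rw [indicator_of_mem h, indicator_of_mem h']
    · have h' : -ξ ∉ Ioo (-α) α := fun h' => h ⟨by linarith [h'.2], by linarith [h'.1]⟩
      rw [indicator_of_notMem h, indicator_of_notMem h']

theorem av_cont {r α : ℝ} {β : ℝ → ℝ} (h : Gd r β) : Continuous (av α β) := by
  have h0 : ∀ a b, IntervalIntegrable β volume a b := fun a b => h.int.intervalIntegrable
  have h1 := intervalIntegral.continuous_primitive h0 0
  have h2 : av α β = fun ξ => (1 / (2 * α)) *
      ((∫ η in (0 : ℝ)..(ξ + α), β η) - ∫ η in (0 : ℝ)..(ξ - α), β η) := by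
    funext ξ
    rw [av, intervalIntegral.integral_interval_sub_left (h0 _ _) (h0 _ _)]
  rw [h2]
  apply Continuous.mul continuous_const
  apply Continuous.sub
  · exact h1.comp (continuous_id.add continuous_const)
  · exact h1.comp (continuous_id.sub continuous_const)

theorem av_gd {r α : ℝ} (hα : 0 < α) {β : ℝ → ℝ} (h : Gd r β) : Gd (r + α) (av α β) := by
  have hsupp : ∀ ξ, r + α ≤ |ξ| → av α β ξ = 0 := by
    intro ξ hξ
    have h1 : ∫ η in (ξ - α)..(ξ + α), β η = ∫ η in (ξ - α)..(ξ + α), (0 : ℝ) := by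
      apply intervalIntegral.integral_congr
      intro η hη
      rw [uIcc_of_le (by linarith)] at hη
      apply h.supp
      have h2 : |ξ - η| ≤ α := abs_le.2 ⟨by linarith [hη.2], by linarith [hη.1]⟩
      have h3 := abs_sub_abs_le_abs_sub ξ η
      linarith
    rw [av, h1]
    simp
  refine ⟨?_, hsupp, ?_⟩
  · apply (av_cont h).integrable_of_hasCompactSupport
    apply HasCompactSupport.intro (isCompact_Icc (a := -(r + α)) (b := r + α))
    intro ξ hξ
    apply hsupp
    rw [mem_Icc, not_and_or, not_le, not_le] at hξ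
    rcases hξ with h1 | h1
    · have := neg_abs_le ξ; linarith
    · have := le_abs_self ξ; linarith
  · intro ξ
    unfold av
    congr 1
    have h1 := intervalIntegral.integral_comp_neg (a := ξ - α) (b := ξ + α) β
    simp only [h.even] at h1
    rw [h1]
    congr 1 <;> ring

theorem av_FT {r α : ℝ} (hα : 0 < α) {β : ℝ → ℝ} (h : Gd r β) (z : ℂ) :
    FT (av α β) z = FT (ub α) z * FT β z := by
  have h1 := integral_convolution (μ := (volume : Measure ℝ)) (ν := (volume : Measure ℝ))
    (ContinuousLinearMap.mul ℂ ℂ) ((ub_gd α hα).int_exp z) (h.int_exp z)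
  rw [ContinuousLinearMap.mul_apply'] at h1
  unfold FT
  rw [← h1]
  refine integral_congr_ae (Eventually.of_forall fun ξ => ?_)
  simp only [convolution_def, ContinuousLinearMap.mul_apply']
  have h2 : ∀ t : ℝ, (ub α t : ℂ) * cexp (I * t * z) *
      ((β (ξ - t) : ℂ) * cexp (I * ((ξ - t : ℝ) : ℂ) * z)) =
      cexp (I * ξ * z) * ((ub α t * β (ξ - t) : ℝ) : ℂ) := by
    intro t
    have : cexp (I * ξ * z) = cexp (I * t * z) * cexp (I * ((ξ - t : ℝ) : ℂ) * z) := by
      rw [← Complex.exp_add]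
      congr 1
      push_cast
      ring
    rw [this]
    push_cast
    ring
  simp_rw [h2]
  rw [integral_const_mul, integral_complex_ofReal, mul_comm]
  congr 2
  have h3 : ∀ t, ub α t * β (ξ - t) =
      indicator (Ioo (-α) α) (fun t => 1 / (2 * α) * β (ξ - t)) t := by
    intro t
    unfold ub
    by_cases ht : t ∈ Ioo (-α) α
    · rw [indicator_of_mem ht, indicator_of_mem ht]
    · rw [indicator_of_notMem ht, indicator_of_notMem ht, zero_mul]
  simp_rw [h3]
  rw [integral_indicator measurableSet_Ioo, ← integral_Ioc_eq_integral_Ioo,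
    ← intervalIntegral.integral_of_le (by linarith), intervalIntegral.integral_const_mul,
    intervalIntegral.integral_comp_sub_left (fun x => β x), av]
  congr 2
  ring

/-- splines -/
def bs (α : ℝ) : ℕ → ℝ → ℝ
  | 0 => ub α
  | n + 1 => av α (bs α n)

theorem bs_gd (α : ℝ) (hα : 0 < α) (n : ℕ) : Gd ((n + 1) * α) (bs α n) := by
  induction n with
  | zero =>
    have := ub_gd α hα
    simpa [bs] using this
  | succ n ih =>
    have := av_gd hα ih
    have h2 : ((n : ℝ) + 1) * α + α = (((n + 1 : ℕ) : ℝ) + 1) * α := by push_cast; ring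
    rw [h2] at this
    exact this

theorem bs_FT (α : ℝ) (hα : 0 < α) (n : ℕ) (z : ℂ) : FT (bs α n) z = FT (ub α) z ^ (n + 1) := by
  induction n with
  | zero => simp [bs]
  | succ n ih =>
    show FT (av α (bs α n)) z = _
    rw [av_FT hα (bs_gd α hα n), ih]
    ring

theorem ub_FT (α : ℝ) (hα : 0 < α) (z : ℂ) :
    FT (ub α) z = ((1 / (2 * α) : ℝ) : ℂ) * ∫ ξ in (-α)..α, cexp (I * z * ξ) := by
  unfold FT
  have h3 : ∀ t : ℝ, (ub α t : ℂ) * cexp (I * t * z) =
      indicator (Ioo (-α) α) (fun t : ℝ => ((1 / (2 * α) : ℝ) : ℂ) * cexp (I * z * t)) t := by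
    intro t
    unfold ub
    by_cases ht : t ∈ Ioo (-α) α
    · rw [indicator_of_mem ht, indicator_of_mem ht]
      congr 2
      ring
    · rw [indicator_of_notMem ht, indicator_of_notMem ht]
      simp
  simp_rw [h3]
  rw [integral_indicator measurableSet_Ioo, ← integral_Ioc_eq_integral_Ioo,
    ← intervalIntegral.integral_of_le (by linarith), intervalIntegral.integral_const_mul]

theorem ub_le (α : ℝ) (hα : 0 < α) (z : ℂ) :
    ‖FT (ub α) z‖ ≤ Real.exp (α * |z.im|) ∧
      ‖FT (ub α) z‖ * (α * ‖z‖) ≤ Real.exp (α * |z.im|) := by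
  have hexp : ∀ ξ : ℝ, |ξ| ≤ α → ‖cexp (I * z * ξ)‖ ≤ Real.exp (α * |z.im|) := by
    intro ξ hξ
    have : I * z * ξ = I * ξ * z := by ring
    rw [this, norm_cexp]
    apply Real.exp_le_exp.2
    calc -(ξ * z.im) ≤ |ξ * z.im| := neg_le_abs _
      _ = |ξ| * |z.im| := abs_mul _ _
      _ ≤ α * |z.im| := mul_le_mul_of_nonneg_right hξ (abs_nonneg _)
  rw [ub_FT α hα]
  have h0 : ‖((1 / (2 * α) : ℝ) : ℂ)‖ = 1 / (2 * α) := by
    rw [Complex.norm_real, Real.norm_eq_abs, abs_of_pos (by positivity)]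
  rw [norm_mul, h0]
  constructor
  · have h1 : ‖∫ ξ in (-α)..α, cexp (I * z * ξ)‖ ≤ Real.exp (α * |z.im|) * |α - -α| := by
      apply intervalIntegral.norm_integral_le_of_norm_le_const
      intro ξ hξ
      rw [uIoc_of_le (by linarith)] at hξ
      exact hexp ξ (abs_le.2 ⟨hξ.1.le, hξ.2⟩)
    have h2 : |α - -α| = 2 * α := by rw [abs_of_pos (by linarith)]; ring
    rw [h2] at h1
    calc 1 / (2 * α) * ‖∫ ξ in (-α)..α, cexp (I * z * ξ)‖
        ≤ 1 / (2 * α) * (Real.exp (α * |z.im|) * (2 * α)) := by gcongr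
      _ = _ := by field_simp
  · by_cases hz : z = 0
    · subst hz; simp
    · have hc : I * z ≠ 0 := mul_ne_zero I_ne_zero hz
      rw [integral_exp_mul_complex hc, norm_div, norm_mul, Complex.norm_I, one_mul]
      have hz' : 0 < ‖z‖ := norm_pos_iff.2 hz
      have h1 : ‖cexp (I * z * (α : ℂ)) - cexp (I * z * ((-α : ℝ) : ℂ))‖ ≤
          2 * Real.exp (α * |z.im|) := by
        refine (norm_sub_le _ _).trans ?_
        have e1 := hexp α (abs_of_pos hα).le
        have e2 := hexp (-α) (by rw [abs_neg, abs_of_pos hα])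
        linarith
      calc 1 / (2 * α) * (‖cexp (I * z * (α : ℂ)) - cexp (I * z * ((-α : ℝ) : ℂ))‖ / ‖z‖) *
            (α * ‖z‖) = 1 / 2 * ‖cexp (I * z * (α : ℂ)) - cexp (I * z * ((-α : ℝ) : ℂ))‖ := by
            field_simp
        _ ≤ 1 / 2 * (2 * Real.exp (α * |z.im|)) := by gcongr
        _ = _ := by ring

theorem ub_decay (α : ℝ) (hα : 0 < α) (z : ℂ) :
    ‖FT (ub α) z‖ ≤ Real.exp (α * |z.im|) * ((1 + 1 / α) / (1 + |z.re|)) := by
  obtain ⟨h1, h2⟩ := ub_le α hα z
  have he := Real.exp_pos (α * |z.im|)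
  have hx := abs_nonneg z.re
  rw [mul_div_assoc', le_div_iff₀ (by positivity)]
  rcases le_total (α * |z.re|) 1 with h | h
  · have h3 : 1 + |z.re| ≤ 1 + 1 / α := by
      have : |z.re| ≤ 1 / α := by rw [le_div_iff₀ hα]; linarith
      linarith
    exact mul_le_mul h1 h3 (by positivity) he.le
  · have h3 : |z.re| ≤ ‖z‖ := Complex.abs_re_le_norm z
    have h4 : 1 + |z.re| ≤ (1 + 1 / α) * (α * |z.re|) := by
      have : (1 + 1 / α) * (α * |z.re|) = α * |z.re| + |z.re| := by field_simp
      rw [this]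
      linarith
    have h5 : (1 + 1 / α) * (α * |z.re|) ≤ (1 + 1 / α) * (α * ‖z‖) := by gcongr
    calc ‖FT (ub α) z‖ * (1 + |z.re|) ≤ ‖FT (ub α) z‖ * ((1 + 1 / α) * (α * ‖z‖)) :=
          mul_le_mul_of_nonneg_left (h4.trans h5) (norm_nonneg _)
      _ = (‖FT (ub α) z‖ * (α * ‖z‖)) * (1 + 1 / α) := by ring
      _ ≤ Real.exp (α * |z.im|) * (1 + 1 / α) := by gcongr

theorem exists_ker (j : ℕ) : ∃ (C0 : ℝ) (β : ℝ → ℝ) (D : ℝ), Ker j C0 β ∧ ∀ ξ, |β ξ| ≤ D := by
  -- `2 m` factors
  set m : ℕ := j + 2 with hm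
  set α : ℝ := 1 / (2 * m) with hα'
  have hm0 : (0 : ℝ) < m := by rw [hm]; positivity
  have hα : 0 < α := by positivity
  set n : ℕ := 2 * m - 1 with hn
  have hn1 : n + 1 = 2 * m := by omega
  obtain ⟨k, hk⟩ : ∃ k, n = k + 1 := ⟨n - 1, by omega⟩
  set β0 : ℝ → ℝ := bs α n with hβ0
  have hgd : Gd 1 β0 := by
    have := bs_gd α hα n
    have h2 : ((n : ℝ) + 1) * α = 1 := by
      have : (n : ℝ) + 1 = 2 * m := by exact_mod_cast hn1
      rw [this, hα']
      field_simp
    rwa [h2] at this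
  have hcont : Continuous β0 := by
    rw [hβ0, hk]
    exact av_cont (bs_gd α hα k)
  have hVF : ∀ z, VF β0 z = FT (ub α) z ^ (2 * m) := by
    intro z
    rw [VF_full β0 hgd.supp, ← hn1, ← bs_FT α hα n z, FT]
  have hre : ∀ x : ℝ, FT (ub α) x = (((FT (ub α) x).re : ℝ) : ℂ) := by
    intro x
    apply Complex.ext
    · simp
    · simp [(ub_gd α hα).im_zero x]
  have hreal : ∀ x : ℝ, VF β0 x = ((((FT (ub α) x).re ^ m) ^ 2 : ℝ) : ℂ) := by
    intro x
    rw [hVF, hre x]
    push_cast
    rw [← pow_mul, mul_comm]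
    simp
  have hdecay : ∀ z : ℂ, ‖VF β0 z‖ ≤ (1 + 1 / α) ^ (2 * m) * Real.exp |z.im| /
      (1 + |z.re|) ^ (j + 2) := by
    intro z
    rw [hVF, norm_pow]
    have h1 := pow_le_pow_left₀ (norm_nonneg _) (ub_decay α hα z) (2 * m)
    rw [mul_pow, div_pow, ← Real.exp_nat_mul] at h1
    have h2 : ((2 * m : ℕ) : ℝ) * (α * |z.im|) = |z.im| := by
      rw [hα']; push_cast; field_simp
    rw [h2] at h1
    refine h1.trans ?_
    have h3 : (1 + |z.re|) ^ (j + 2) ≤ (1 + |z.re|) ^ (2 * m) :=
      pow_le_pow_right₀ (by linarith [abs_nonneg z.re]) (by omega)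
    have h4 : 0 < (1 + |z.re|) ^ (j + 2) := by positivity
    rw [← mul_div_assoc, mul_comm]
    exact div_le_div_of_nonneg_left (by positivity) h4 h3
  -- integrability on the real axis
  have hint : Integrable (fun x : ℝ => VF β0 (x + (0 : ℝ) * I)) := by
    have hG : Integrable (fun x : ℝ => (1 + 1 / α) ^ (2 * m) * (1 + x ^ 2)⁻¹) :=
      integrable_inv_one_add_sq.const_mul _
    refine hG.mono' ?_ ?_
    · apply Continuous.aestronglyMeasurable
      exact (VF_cont _ hcont).comp (by fun_prop)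
    · refine Eventually.of_forall fun x => ?_
      have hx : (x : ℂ) + ((0 : ℝ) : ℂ) * I = (x : ℂ) := by push_cast; ring
      rw [hx]
      refine (hdecay x).trans ?_
      simp only [Complex.ofReal_im, Complex.ofReal_re, abs_zero, Real.exp_zero, mul_one]
      rw [div_eq_mul_inv]
      apply mul_le_mul_of_nonneg_left _ (by positivity)
      apply inv_anti₀ (by positivity)
      have := pow_bound j (le_refl 0) (abs_nonneg x)
      simpa using this
  have htot := (total_gen β0 hcont hgd.supp 0 hint).2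
  have hpos : 0 < β0 0 := by
    have h1 : ∀ x : ℝ, VF β0 (x + (0 : ℝ) * I) = ((((FT (ub α) x).re ^ m) ^ 2 : ℝ) : ℂ) := by
      intro x
      have hx : (x : ℂ) + ((0 : ℝ) : ℂ) * I = (x : ℂ) := by push_cast; ring
      rw [hx, hreal]
    simp_rw [h1] at htot hint
    rw [integral_complex_ofReal] at htot
    have h2 : Continuous (fun x : ℝ => ((FT (ub α) x).re ^ m) ^ 2) := by
      have h3 : (fun x : ℝ => ((FT (ub α) x).re ^ m) ^ 2) = fun x : ℝ => (VF β0 x).re := by
        funext x
        rw [hreal, Complex.ofReal_re]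
      rw [h3]
      exact Complex.continuous_re.comp ((VF_cont _ hcont).comp continuous_ofReal)
    have h3 : Integrable (fun x : ℝ => ((FT (ub α) x).re ^ m) ^ 2) := by
      have := hint.re
      refine this.congr (Eventually.of_forall fun x => ?_)
      exact Complex.ofReal_re _
    have h4 : 0 < ∫ x : ℝ, ((FT (ub α) x).re ^ m) ^ 2 := by
      refine integral_pos_of_integrable_nonneg_nonzero (x := 0) h2 h3 (fun x => by positivity) ?_
      have h5 : FT (ub α) ((0 : ℝ) : ℂ) = 1 := by
        rw [ub_FT α hα]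
        simp only [Complex.ofReal_zero, mul_zero, zero_mul, Complex.exp_zero,
          intervalIntegral.integral_const]
        rw [Complex.real_smul]
        have : (α : ℂ) ≠ 0 := by exact_mod_cast hα.ne'
        push_cast
        field_simp
        ring
      rw [h5]
      simp
    have h5 : (∫ x : ℝ, ((FT (ub α) x).re ^ m) ^ 2) = 2 * Real.pi * β0 0 := by
      exact_mod_cast htot
    rw [h5] at h4
    exact (mul_pos_iff_of_pos_left Real.two_pi_pos).1 h4
  -- normalisation
  set c : ℝ := 1 / (2 * Real.pi * β0 0) with hc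
  have hpi := Real.pi_pos
  have hc0 : 0 < c := by positivity
  have hVFc : ∀ z, VF (fun ξ => c * β0 ξ) z = c * VF β0 z := by
    intro z
    unfold VF
    rw [← intervalIntegral.integral_const_mul]
    refine intervalIntegral.integral_congr fun ξ _ => ?_
    simp only
    push_cast
    ring
  have hbd : ∃ D, ∀ ξ, |β0 ξ| ≤ D := by
    obtain ⟨D, hD⟩ := (isCompact_Icc (a := (-1 : ℝ)) (b := 1)).exists_bound_of_continuousOn
      hcont.continuousOn
    refine ⟨max D 0, fun ξ => ?_⟩
    by_cases h : 1 ≤ |ξ|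
    · rw [hgd.supp ξ h]; simp
    · have h' := abs_le.1 (not_le.1 h).le
      exact (hD ξ ⟨h'.1, h'.2⟩).trans (le_max_left _ _)
  obtain ⟨D, hD⟩ := hbd
  refine ⟨c * (1 + 1 / α) ^ (2 * m), fun ξ => c * β0 ξ, c * D, ?_, ?_⟩
  · refine
      { cont := continuous_const.mul hcont
        even := fun ξ => by simp only [hgd.even]
        supp := fun ξ hξ => by rw [hgd.supp ξ hξ, mul_zero]
        zero := ?_
        real := fun x => ?_
        decay := fun z => ?_
        C0 := by positivity }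
    · show c * β0 0 = 1 / (2 * Real.pi)
      rw [hc]
      field_simp
    · rw [hVFc, hreal, ← Complex.ofReal_mul, Complex.ofReal_im, Complex.ofReal_re]
      exact ⟨rfl, by positivity⟩
    · rw [hVFc, norm_mul, Complex.norm_real, Real.norm_eq_abs, abs_of_pos hc0]
      calc c * ‖VF β0 z‖ ≤ c * ((1 + 1 / α) ^ (2 * m) * Real.exp |z.im| /
            (1 + |z.re|) ^ (j + 2)) := mul_le_mul_of_nonneg_left (hdecay z) hc0.le
        _ = _ := by ring
  · intro ξ
    rw [abs_mul, abs_of_pos hc0]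
    exact mul_le_mul_of_nonneg_left (hD ξ) hc0.le

theorem t_KER : P_KER := by
  intro j
  obtain ⟨C0, β, D, hK, hD⟩ := exists_ker (j + 2)
  exact wf_of_ker hK D hD

end

end Pool.Agent.Y248.SW
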