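import Pool.Agent.Y745.SW.DefsA

set_option autoImplicit false

/-!
Window functions from a band-limited kernel (for helper745's P_KER), part A.
-/

namespace Pool.Agent.Y248.SW

open Filter Topology MeasureTheory Complex Set
open Pool.Agent.Y745.SW (VF Wf P_KER)
open scoped FourierTransform

noncomputable section

theorem VF_cont (β : ℝ → ℝ) (hβ : Continuous β) : Continuous (VF β) := by
  unfold VF
  apply intervalIntegral.continuous_parametric_intervalIntegral_of_continuous'
  apply Continuous.mul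
  · exact continuous_ofReal.comp (hβ.comp continuous_snd)
  · fun_prop

theorem VF_full (β : ℝ → ℝ) (hs : ∀ ξ, 1 ≤ |ξ| → β ξ = 0) (z : ℂ) :
    VF β z = ∫ ξ : ℝ, (β ξ : ℂ) * cexp (I * ξ * z) := by
  unfold VF
  rw [intervalIntegral.integral_of_le (by norm_num)]
  apply setIntegral_eq_integral_of_forall_compl_eq_zero
  intro ξ hξ
  have : 1 ≤ |ξ| := by
    rw [mem_Ioc, not_and_or, not_lt, not_le] at hξ
    rcases hξ with h | h
    · rw [abs_of_nonpos (by linarith)]; linarith
    · rw [abs_of_nonneg (by linarith)]; linarith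
  rw [hs ξ this]
  simp

/-- the function whose Fourier transform is `VF β (- 2 π w + y i)` -/
def fy (β : ℝ → ℝ) (y : ℝ) (ξ : ℝ) : ℂ := (β ξ : ℂ) * cexp (-(ξ * y : ℝ))

theorem fy_cont (β : ℝ → ℝ) (hβ : Continuous β) (y : ℝ) : Continuous (fy β y) := by
  unfold fy
  apply Continuous.mul
  · exact continuous_ofReal.comp hβ
  · fun_prop

theorem fy_int (β : ℝ → ℝ) (hβ : Continuous β) (hs : ∀ ξ, 1 ≤ |ξ| → β ξ = 0) (y : ℝ) :
    Integrable (fy β y) := by
  apply (fy_cont β hβ y).integrable_of_hasCompactSupport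
  apply HasCompactSupport.intro (isCompact_Icc (a := (-1 : ℝ)) (b := 1))
  intro ξ hξ
  have : 1 ≤ |ξ| := by
    rw [mem_Icc, not_and_or, not_le, not_le] at hξ
    rcases hξ with h | h
    · rw [abs_of_nonpos (by linarith)]; linarith
    · rw [abs_of_nonneg (by linarith)]; linarith
  rw [fy, hs ξ this]
  simp

theorem fy_fourier (β : ℝ → ℝ) (hs : ∀ ξ, 1 ≤ |ξ| → β ξ = 0) (y w : ℝ) :
    𝓕 (fy β y) w = VF β (((-(2 * Real.pi)) * w : ℝ) + y * I) := by
  rw [Real.fourier_real_eq_integral_exp_smul, VF_full β hs]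
  refine integral_congr_ae (Eventually.of_forall fun ξ => ?_)
  simp only [fy, smul_eq_mul]
  rw [mul_comm, mul_assoc, ← Complex.exp_add]
  congr 2
  push_cast
  linear_combination (-(ξ : ℂ) * y) * I_mul_I

/-- inversion at `0` -/
theorem total_gen (β : ℝ → ℝ) (hβ : Continuous β) (hs : ∀ ξ, 1 ≤ |ξ| → β ξ = 0) (y : ℝ)
    (hi : Integrable (fun x : ℝ => VF β (x + y * I))) :
    ∫ w : ℝ, 𝓕 (fy β y) w = β 0 ∧ ∫ x : ℝ, VF β (x + y * I) = 2 * Real.pi * β 0 := by
  have hpi : (-(2 * Real.pi)) ≠ 0 := by have := Real.pi_pos; linarith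
  have h1 : Integrable (𝓕 (fy β y)) := by
    have h2 : 𝓕 (fy β y) = fun w : ℝ => (fun x : ℝ => VF β (x + y * I)) ((-(2 * Real.pi)) * w) := by
      funext w
      exact fy_fourier β hs y w
    rw [h2]
    exact hi.comp_mul_left' hpi
  have h3 := (fy_int β hβ hs y).fourierInv_fourier_eq h1 (fy_cont β hβ y).continuousAt (v := 0)
  have h4 : 𝓕⁻ (𝓕 (fy β y)) 0 = ∫ w : ℝ, 𝓕 (fy β y) w := by
    rw [Real.fourierInv_eq']
    refine integral_congr_ae (Eventually.of_forall fun w => ?_)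
    simp
  have h5 : fy β y 0 = β 0 := by simp [fy]
  rw [h4, h5] at h3
  refine ⟨h3, ?_⟩
  have h6 : ∫ w : ℝ, 𝓕 (fy β y) w = |(-(2 * Real.pi))⁻¹| • ∫ x : ℝ, VF β (x + y * I) := by
    rw [← Measure.integral_comp_mul_left (fun x : ℝ => VF β (x + y * I)) (-(2 * Real.pi))]
    refine integral_congr_ae (Eventually.of_forall fun w => ?_)
    exact fy_fourier β hs y w
  have h7 : |(-(2 * Real.pi))⁻¹| = (2 * Real.pi)⁻¹ := by
    rw [abs_inv, abs_neg, abs_of_pos Real.two_pi_pos]
  rw [h3, h7, Complex.real_smul] at h6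
  have h8 : ((2 * Real.pi : ℝ) : ℂ) ≠ 0 := by
    exact_mod_cast Real.two_pi_pos.ne'
  have h9 : ((2 * Real.pi : ℝ) : ℂ) * (β 0 : ℂ) = ∫ x : ℝ, VF β (x + y * I) := by
    rw [h6]
    push_cast
    push_cast at h8
    field_simp
  rw [← h9]
  push_cast
  ring

/-- Plancherel -/
theorem planch (β : ℝ → ℝ) (hβ : Continuous β) (hs : ∀ ξ, 1 ≤ |ξ| → β ξ = 0)
    (he : ∀ ξ, β (-ξ) = β ξ)
    (hi : Integrable (fun x : ℝ => VF β (x + (0 : ℝ) * I))) :
    ∫ w : ℝ, 𝓕 (fy β 0) w * 𝓕 (fy β 0) w = ∫ ξ : ℝ, (fy β 0) ξ * (fy β 0) ξ := by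
  have hpi : (-(2 * Real.pi)) ≠ 0 := by have := Real.pi_pos; linarith
  have h1 : Integrable (𝓕 (fy β 0)) := by
    have h2 : 𝓕 (fy β 0) = fun w : ℝ =>
        (fun x : ℝ => VF β (x + (0 : ℝ) * I)) ((-(2 * Real.pi)) * w) := by
      funext w
      exact fy_fourier β hs 0 w
    rw [h2]
    exact hi.comp_mul_left' hpi
  have h2 : ∫ w : ℝ, 𝓕 (fy β 0) w • 𝓕 (fy β 0) w = ∫ ξ : ℝ, (fy β 0) ξ • 𝓕 (𝓕 (fy β 0)) ξ := by
    have := VectorFourier.integral_fourierIntegral_smul_eq_flip (L := innerₗ ℝ)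
      (μ := (volume : Measure ℝ)) (ν := (volume : Measure ℝ)) Real.continuous_fourierChar
      continuous_inner (fy_int β hβ hs 0) h1
    simpa using! this
  simp only [smul_eq_mul] at h2
  rw [h2]
  refine integral_congr_ae (Eventually.of_forall fun ξ => ?_)
  simp only
  congr 1
  have h3 := (fy_int β hβ hs 0).fourierInv_fourier_eq h1 (fy_cont β hβ 0).continuousAt (v := -ξ)
  rw [Real.fourierInv_eq_fourier_neg, neg_neg] at h3
  rw [h3]
  simp [fy, he]

/-- kernels -/
structure Ker (j : ℕ) (C0 : ℝ) (β : ℝ → ℝ) : Prop where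
  cont : Continuous β
  even : ∀ ξ, β (-ξ) = β ξ
  supp : ∀ ξ, 1 ≤ |ξ| → β ξ = 0
  zero : β 0 = 1 / (2 * Real.pi)
  real : ∀ x : ℝ, (VF β x).im = 0 ∧ 0 ≤ (VF β x).re
  decay : ∀ z : ℂ, ‖VF β z‖ ≤ C0 * Real.exp |z.im| / (1 + |z.re|) ^ (j + 2)
  C0 : 0 ≤ C0

section

variable {j : ℕ} {C0 : ℝ} {β : ℝ → ℝ}

theorem pow_bound (j : ℕ) {a t : ℝ} (ha : 0 ≤ a) (hat : a ≤ |t|) :
    (1 + a) ^ j * (1 + t ^ 2) ≤ (1 + |t|) ^ (j + 2) := by
  rw [pow_add]
  apply mul_le_mul
  · exact pow_le_pow_left₀ (by linarith) (by linarith) j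
  · have := sq_abs t
    nlinarith [abs_nonneg t]
  · positivity
  · positivity

/-- the integral of the kernel over a set away from `re z` -/
theorem Ker.tail (hK : Ker j C0 β) (z : ℂ) {a : ℝ} (ha : 0 ≤ a) {A : Set ℝ}
    (hA : MeasurableSet A) (hAa : ∀ y ∈ A, a ≤ |z.re - y|) :
    ‖∫ y in A, VF β (z - y)‖ ≤ C0 * Real.pi * Real.exp |z.im| / (1 + a) ^ j := by
  set G : ℝ → ℝ := fun y => C0 * Real.exp |z.im| / (1 + a) ^ j * (1 + (z.re - y) ^ 2)⁻¹ with hG
  have hGi : Integrable G := by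
    apply Integrable.const_mul
    exact integrable_inv_one_add_sq.comp_sub_left z.re
  have hC := hK.C0
  have hG0 : ∀ y, 0 ≤ G y := fun y => by positivity
  have h1 : ∀ y ∈ A, ‖VF β (z - y)‖ ≤ G y := by
    intro y hy
    refine (hK.decay _).trans ?_
    have h2 : (z - (y : ℂ)).im = z.im := by simp
    have h3 : (z - (y : ℂ)).re = z.re - y := by simp
    rw [h2, h3, hG]
    simp only
    rw [div_mul_eq_mul_div, ← div_eq_mul_inv, div_div, mul_comm (1 + (z.re - y) ^ 2)]
    apply div_le_div_of_nonneg_left (by positivity) (by positivity)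
    exact pow_bound j ha (hAa y hy)
  have h2 : ‖∫ y in A, VF β (z - y)‖ ≤ ∫ y in A, G y := by
    apply norm_integral_le_of_norm_le hGi.integrableOn
    rw [ae_restrict_iff' hA]
    exact Eventually.of_forall h1
  refine h2.trans ((setIntegral_le_integral hGi (Eventually.of_forall hG0)).trans ?_)
  rw [hG, integral_const_mul, integral_sub_left_eq_self (fun y => (1 + y ^ 2)⁻¹),
    integral_univ_inv_one_add_sq]
  apply le_of_eq
  ring

theorem Ker.int (hK : Ker j C0 β) (z : ℂ) : Integrable (fun y : ℝ => VF β (z - y)) := by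
  have hG : Integrable (fun y : ℝ => C0 * Real.exp |z.im| * (1 + (z.re - y) ^ 2)⁻¹) := by
    apply Integrable.const_mul
    exact integrable_inv_one_add_sq.comp_sub_left z.re
  have hC := hK.C0
  refine hG.mono' ?_ ?_
  · apply Continuous.aestronglyMeasurable
    exact (VF_cont β hK.cont).comp (by fun_prop)
  · refine Eventually.of_forall fun y => ?_
    refine (hK.decay _).trans ?_
    have h2 : (z - (y : ℂ)).im = z.im := by simp
    have h3 : (z - (y : ℂ)).re = z.re - y := by simp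
    rw [h2, h3, div_eq_mul_inv]
    apply mul_le_mul_of_nonneg_left _ (by positivity)
    apply inv_anti₀ (by positivity)
    have := pow_bound j (le_refl 0) (abs_nonneg (z.re - y))
    simpa using this

theorem Ker.int' (hK : Ker j C0 β) (y : ℝ) : Integrable (fun x : ℝ => VF β (x + y * I)) := by
  have h1 := hK.int (y * I)
  have h2 := h1.comp_neg
  refine h2.congr (Eventually.of_forall fun x => ?_)
  simp only
  congr 1
  push_cast
  ring

theorem Ker.total (hK : Ker j C0 β) (z : ℂ) : ∫ y : ℝ, VF β (z - y) = 1 := by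
  have h1 := (total_gen β hK.cont hK.supp z.im (hK.int' z.im)).2
  have h2 : ∫ y : ℝ, VF β (z - y) = ∫ x : ℝ, VF β (x + z.im * I) := by
    rw [← integral_sub_left_eq_self (fun x : ℝ => VF β (x + z.im * I)) volume z.re]
    refine integral_congr_ae (Eventually.of_forall fun y => ?_)
    simp only
    congr 1
    conv_lhs => rw [← Complex.re_add_im z]
    push_cast
    ring
  rw [h2, h1, hK.zero]
  have := Real.pi_ne_zero
  have h8 : (Real.pi : ℂ) ≠ 0 := by exact_mod_cast this
  push_cast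
  field_simp

/-- the frequency data of the window -/
def BN (β : ℝ → ℝ) (N : ℝ) (ξ : ℝ) : ℝ := β ξ * ∫ y in (-N)..N, Real.cos (ξ * y)

theorem BN_cont (hβ : Continuous β) (N : ℝ) : Continuous (BN β N) := by
  unfold BN
  apply hβ.mul
  apply intervalIntegral.continuous_parametric_intervalIntegral_of_continuous'
  fun_prop

theorem cos_int (N ξ : ℝ) :
    ∫ y in (-N)..N, cexp (-(I * ξ * y)) = ((∫ y in (-N)..N, Real.cos (ξ * y) : ℝ) : ℂ) := by
  have h1 : ∀ y : ℝ, cexp (-(I * ξ * y)) = ((Real.cos (ξ * y) : ℝ) : ℂ) -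
      ((Real.sin (ξ * y) : ℝ) : ℂ) * I := by
    intro y
    have : -(I * (ξ : ℂ) * y) = (((-(ξ * y) : ℝ)) : ℂ) * I := by push_cast; ring
    rw [this, Complex.exp_mul_I, ← Complex.ofReal_cos, ← Complex.ofReal_sin, Real.cos_neg,
      Real.sin_neg]
    push_cast
    ring
  have h2 : ∫ y in (-N)..N, Real.sin (ξ * y) = 0 := by
    have h3 := intervalIntegral.integral_comp_neg (a := -N) (b := N) (fun y => Real.sin (ξ * y))
    simp only [mul_neg, Real.sin_neg, neg_neg, intervalIntegral.integral_neg] at h3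
    linarith
  simp_rw [h1]
  rw [intervalIntegral.integral_sub, intervalIntegral.integral_mul_const,
    intervalIntegral.integral_ofReal, intervalIntegral.integral_ofReal, h2]
  · simp
  · apply Continuous.intervalIntegrable; fun_prop
  · apply Continuous.intervalIntegrable; fun_prop

theorem VF_BN (hβ : Continuous β) (N : ℝ) (z : ℂ) :
    VF (BN β N) z = ∫ y in (-N)..N, VF β (z - y) := by
  unfold VF
  rw [intervalIntegral_intervalIntegral_swap]
  · refine intervalIntegral.integral_congr fun ξ _ => ?_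
    simp only [BN]
    have h1 : ∀ y : ℝ, (β ξ : ℂ) * cexp (I * ξ * (z - y)) =
        ((β ξ : ℂ) * cexp (I * ξ * z)) * cexp (-(I * ξ * y)) := by
      intro y
      rw [mul_assoc (β ξ : ℂ) (cexp (I * ξ * z)) (cexp (-(I * ξ * y))), ← Complex.exp_add]
      congr 2
      ring
    simp_rw [h1]
    rw [intervalIntegral.integral_const_mul, cos_int]
    push_cast
    ring
  · have hc : Continuous (Function.uncurry fun (y ξ : ℝ) => (β ξ : ℂ) * cexp (I * ξ * (z - y))) := by
      apply Continuous.mul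
      · exact continuous_ofReal.comp (hβ.comp continuous_snd)
      · fun_prop
    exact (hc.continuousOn.integrableOn_compact
      (isCompact_uIcc.prod isCompact_uIcc)).mono_set (prod_mono uIoc_subset_uIcc uIoc_subset_uIcc)

end

end

end Pool.Agent.Y248.SW
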