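import Pool.Agent.Y248.SW.KerA

set_option autoImplicit false

/-!
Window functions from a band-limited kernel (for helper745's P_KER), part B.
-/

namespace Pool.Agent.Y248.SW

open Filter Topology MeasureTheory Complex Set
open Pool.Agent.Y745.SW (VF Wf P_KER)
open scoped FourierTransform

noncomputable section

variable {j : ℕ} {C0 : ℝ} {β : ℝ → ℝ}

theorem BN_supp (hs : ∀ ξ, 1 ≤ |ξ| → β ξ = 0) (N ξ : ℝ) (h : 1 ≤ |ξ|) : BN β N ξ = 0 := by
  rw [BN, hs ξ h, zero_mul]

theorem BN_even (he : ∀ ξ, β (-ξ) = β ξ) (N ξ : ℝ) : BN β N (-ξ) = BN β N ξ := by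
  simp only [BN, he, neg_mul, Real.cos_neg]

theorem BN_zero (hz : β 0 = 1 / (2 * Real.pi)) (N : ℝ) : BN β N 0 = N / Real.pi := by
  have := Real.pi_ne_zero
  simp only [BN, hz, zero_mul, Real.cos_zero, intervalIntegral.integral_const, smul_eq_mul]
  field_simp
  ring

theorem Ker.VF_Ioc (hK : Ker j C0 β) {N : ℝ} (hN : 0 ≤ N) (z : ℂ) :
    VF (BN β N) z = ∫ y in Ioc (-N) N, VF β (z - y) := by
  rw [VF_BN hK.cont, intervalIntegral.integral_of_le (by linarith)]

theorem Ker.inner (hK : Ker j C0 β) {N : ℝ} (hN : 0 ≤ N) (z : ℂ) (hz : |z.re| ≤ N) :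
    ‖VF (BN β N) z - 1‖ ≤ C0 * Real.pi * Real.exp |z.im| / (1 + (N - |z.re|)) ^ j := by
  have h1 := integral_add_compl (measurableSet_Ioc (a := -N) (b := N)) (hK.int z)
  rw [hK.total z, ← hK.VF_Ioc hN] at h1
  have h2 : VF (BN β N) z - 1 = -∫ y in (Ioc (-N) N)ᶜ, VF β (z - y) := by
    rw [← h1]; ring
  rw [h2, norm_neg]
  apply hK.tail z (by linarith) measurableSet_Ioc.compl
  intro y hy
  rw [mem_compl_iff, mem_Ioc, not_and_or, not_lt, not_le] at hy
  have h3 : N ≤ |y| := by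
    rcases hy with h | h
    · rw [abs_of_nonpos (by linarith)]; linarith
    · rw [abs_of_nonneg (by linarith)]; linarith
  have h4 := abs_sub_abs_le_abs_sub y z.re
  rw [abs_sub_comm] at h4
  linarith

theorem Ker.outer (hK : Ker j C0 β) {N : ℝ} (hN : 0 ≤ N) (z : ℂ) (hz : N ≤ |z.re|) :
    ‖VF (BN β N) z‖ ≤ C0 * Real.pi * Real.exp |z.im| / (1 + (|z.re| - N)) ^ j := by
  rw [hK.VF_Ioc hN]
  apply hK.tail z (by linarith) measurableSet_Ioc
  intro y hy
  have h3 : |y| ≤ N := abs_le.2 ⟨hy.1.le, hy.2⟩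
  have h4 := abs_sub_abs_le_abs_sub z.re y
  linarith

theorem Ker.realN (hK : Ker j C0 β) {N : ℝ} (hN : 0 ≤ N) (x : ℝ) :
    (VF (BN β N) x).im = 0 ∧ 0 ≤ (VF (BN β N) x).re ∧ (VF (BN β N) x).re ≤ 1 := by
  have h1 : ∀ y : ℝ, VF β ((x : ℂ) - y) = (((VF β ((x - y : ℝ) : ℂ)).re : ℝ) : ℂ) := by
    intro y
    apply Complex.ext
    · rw [Complex.ofReal_re]; push_cast; rfl
    · rw [Complex.ofReal_im]
      have := (hK.real (x - y)).1
      push_cast at this
      exact this
  have h2 : VF (BN β N) x = ((∫ y in Ioc (-N) N, (VF β ((x - y : ℝ) : ℂ)).re : ℝ) : ℂ) := by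
    rw [hK.VF_Ioc hN]
    simp_rw [h1]
    exact integral_ofReal
  have hre : Integrable (fun y : ℝ => (VF β ((x - y : ℝ) : ℂ)).re) := by
    have := (hK.int x).re
    refine this.congr (Eventually.of_forall fun y => ?_)
    simp only [h1 y]
    simp
  have h3 : ∫ y : ℝ, (VF β ((x - y : ℝ) : ℂ)).re = 1 := by
    have h4 : ((∫ y : ℝ, (VF β ((x - y : ℝ) : ℂ)).re : ℝ) : ℂ) = 1 := by
      rw [← integral_complex_ofReal, ← hK.total (x : ℂ)]
      refine integral_congr_ae (Eventually.of_forall fun y => ?_)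
      exact (h1 y).symm
    exact_mod_cast h4
  rw [h2, Complex.ofReal_im, Complex.ofReal_re]
  refine ⟨rfl, integral_nonneg fun y => (hK.real _).2, ?_⟩
  rw [← h3]
  exact setIntegral_le_integral hre (Eventually.of_forall fun y => (hK.real _).2)

/-- the window is integrable on the real axis -/
theorem Ker.intN (hK : Ker (j + 2) C0 β) {N : ℝ} (hN : 1 ≤ N) :
    Integrable (fun x : ℝ => VF (BN β N) (x + (0 : ℝ) * I)) := by
  have hN0 : 0 ≤ N := by linarith
  have hC := hK.C0
  set D : ℝ := (1 + C0 * Real.pi) * (1 + N) ^ 2 with hD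
  have hD1 : 0 ≤ D := by positivity
  have hG : Integrable (fun x : ℝ => D * (1 + x ^ 2)⁻¹) :=
    integrable_inv_one_add_sq.const_mul D
  refine hG.mono' ?_ ?_
  · apply Continuous.aestronglyMeasurable
    exact (VF_cont _ (BN_cont hK.cont N)).comp (by fun_prop)
  · refine Eventually.of_forall fun x => ?_
    have hx : (x : ℂ) + ((0 : ℝ) : ℂ) * I = (x : ℂ) := by push_cast; ring
    rw [hx, ← div_eq_mul_inv, le_div_iff₀ (by positivity)]
    have hpi := Real.pi_pos
    rcases le_total |x| N with h | h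
    · have h1 : ‖VF (BN β N) x‖ ≤ 1 := by
        obtain ⟨h2, h3, h4⟩ := hK.realN hN0 x
        have h5 : VF (BN β N) x = (((VF (BN β N) x).re : ℝ) : ℂ) := by
          apply Complex.ext
          · simp
          · simp [h2]
        rw [h5, Complex.norm_real, Real.norm_eq_abs, abs_of_nonneg h3]
        exact h4
      have h2 : x ^ 2 ≤ N ^ 2 := by
        rw [← sq_abs x]
        exact pow_le_pow_left₀ (abs_nonneg _) h 2
      calc ‖VF (BN β N) x‖ * (1 + x ^ 2) ≤ 1 * (1 + N ^ 2) := by gcongr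
        _ ≤ D := by
            rw [hD]
            have h3 : (1 + N ^ 2) ≤ (1 + N) ^ 2 := by nlinarith
            have h4 : 0 ≤ C0 * Real.pi := by positivity
            nlinarith [sq_nonneg (1 + N)]
    · have h1 := hK.outer hN0 (x : ℂ) (by simpa using h)
      simp only [Complex.ofReal_im, Complex.ofReal_re, abs_zero, Real.exp_zero, mul_one] at h1
      have h2 : (1 + x ^ 2) ≤ (1 + (|x| - N)) ^ (j + 2) * (1 + N) ^ 2 := by
        have h3 : 1 ≤ 1 + (|x| - N) := by linarith
        have h4 : (1 + (|x| - N)) ^ 2 ≤ (1 + (|x| - N)) ^ (j + 2) :=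
          pow_le_pow_right₀ h3 (by omega)
        have h5 : 1 + |x| ≤ (1 + (|x| - N)) * (1 + N) := by nlinarith
        have h6 : (1 + |x|) ^ 2 ≤ ((1 + (|x| - N)) * (1 + N)) ^ 2 :=
          pow_le_pow_left₀ (by positivity) h5 2
        have h7 : 1 + x ^ 2 ≤ (1 + |x|) ^ 2 := by
          have := sq_abs x
          nlinarith [abs_nonneg x]
        rw [mul_pow] at h6
        have h8 : 0 ≤ (1 + N) ^ 2 := by positivity
        nlinarith
      have h3 : 0 < (1 + (|x| - N)) ^ (j + 2) := pow_pos (by linarith) _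
      calc ‖VF (BN β N) x‖ * (1 + x ^ 2)
          ≤ (C0 * Real.pi / (1 + (|x| - N)) ^ (j + 2)) *
            ((1 + (|x| - N)) ^ (j + 2) * (1 + N) ^ 2) := by
            apply mul_le_mul h1 h2 (by positivity) (by positivity)
        _ = C0 * Real.pi * (1 + N) ^ 2 := by field_simp
        _ ≤ D := by
            rw [hD]
            have : 0 ≤ (1 + N) ^ 2 := by positivity
            nlinarith

theorem Ker.sqN (hK : Ker (j + 2) C0 β) {N : ℝ} (hN : 1 ≤ N) :
    (∫ ξ in (-1 : ℝ)..1, BN β N ξ ^ 2) ≤ N / Real.pi := by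
  have hN0 : 0 ≤ N := by linarith
  have hc := BN_cont hK.cont N
  have hs := BN_supp hK.supp N
  have hi := hK.intN hN
  have h1 := planch (BN β N) hc hs (BN_even hK.even N) hi
  have h2 := (total_gen (BN β N) hc hs 0 hi).1
  rw [BN_zero hK.zero] at h2
  -- real form
  set v : ℝ → ℝ := fun w => (VF (BN β N) ((-(2 * Real.pi)) * w : ℝ)).re with hv
  have h3 : ∀ w : ℝ, 𝓕 (fy (BN β N) 0) w = (v w : ℂ) := by
    intro w
    rw [fy_fourier _ hs]
    have hx : (((-(2 * Real.pi)) * w : ℝ) : ℂ) + ((0 : ℝ) : ℂ) * I =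
        (((-(2 * Real.pi)) * w : ℝ) : ℂ) := by
      push_cast; ring
    rw [hx]
    apply Complex.ext
    · rw [Complex.ofReal_re]
    · rw [Complex.ofReal_im]
      exact (hK.realN hN0 _).1
  have hv0 : ∀ w, 0 ≤ v w := fun w => (hK.realN hN0 _).2.1
  have hv1 : ∀ w, v w ≤ 1 := fun w => (hK.realN hN0 _).2.2
  have hpi : (-(2 * Real.pi)) ≠ 0 := by have := Real.pi_pos; linarith
  have hvi : Integrable v := by
    have h4 := (hi.comp_mul_left' hpi).re
    refine h4.congr (Eventually.of_forall fun w => ?_)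
    simp only [hv]
    have hx : (((-(2 * Real.pi)) * w : ℝ) : ℂ) + ((0 : ℝ) : ℂ) * I =
        (((-(2 * Real.pi)) * w : ℝ) : ℂ) := by
      push_cast; ring
    rw [hx]
    rfl
  simp_rw [h3] at h1 h2
  have h4 : ∫ w, v w = N / Real.pi := by
    have : ((∫ w, v w : ℝ) : ℂ) = ((N / Real.pi : ℝ) : ℂ) := by
      rw [← integral_complex_ofReal]; exact h2
    exact_mod_cast this
  have h5 : ∫ w, v w * v w = ∫ ξ, BN β N ξ * BN β N ξ := by
    have h6 : ((∫ w, v w * v w : ℝ) : ℂ) = ((∫ ξ, BN β N ξ * BN β N ξ : ℝ) : ℂ) := by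
      rw [← integral_complex_ofReal, ← integral_complex_ofReal]
      push_cast
      rw [h1]
      refine integral_congr_ae (Eventually.of_forall fun ξ => ?_)
      simp [fy]
    exact_mod_cast h6
  have h6 : ∫ w, v w * v w ≤ ∫ w, v w := by
    refine integral_mono_of_nonneg (Eventually.of_forall fun w => mul_nonneg (hv0 w) (hv0 w)) hvi
      (Eventually.of_forall fun w => ?_)
    exact mul_le_of_le_one_right (hv0 w) (hv1 w)
  have h7 : (∫ ξ in (-1 : ℝ)..1, BN β N ξ ^ 2) = ∫ ξ, BN β N ξ * BN β N ξ := by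
    rw [intervalIntegral.integral_of_le (by norm_num)]
    rw [setIntegral_eq_integral_of_forall_compl_eq_zero]
    · refine integral_congr_ae (Eventually.of_forall fun ξ => ?_)
      exact sq _
    · intro ξ hξ
      have : 1 ≤ |ξ| := by
        rw [mem_Ioc, not_and_or, not_lt, not_le] at hξ
        rcases hξ with h | h
        · rw [abs_of_nonpos (by linarith)]; linarith
        · rw [abs_of_nonneg (by linarith)]; linarith
      rw [hs ξ this]
      norm_num
  rw [h7, ← h5, ← h4]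
  exact h6

theorem wf_of_ker (hK : Ker (j + 2) C0 β) (D : ℝ) (hD : ∀ ξ, |β ξ| ≤ D) :
    ∃ C : ℝ, 1 ≤ C ∧ ∀ N : ℝ, 1 ≤ N → ∃ B : ℝ → ℝ, Wf j C N B := by
  have hD0 : 0 ≤ D := (abs_nonneg _).trans (hD 0)
  have hpi := Real.pi_pos
  have hC := hK.C0
  have hCp : 0 ≤ C0 * Real.pi := by positivity
  refine ⟨1 + 2 * D + C0 * Real.pi, by linarith, fun N hN => ⟨BN β N, ?_⟩⟩
  have hN0 : 0 ≤ N := by linarith
  refine
    { cont := BN_cont hK.cont N
      even := BN_even hK.even N
      bd := ?_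
      zero := BN_zero hK.zero N
      sq := hK.sqN hN
      real := hK.realN hN0
      inner := ?_
      outer := ?_ }
  · intro ξ
    have h1 : ‖∫ y in (-N)..N, Real.cos (ξ * y)‖ ≤ 1 * |N - -N| := by
      apply intervalIntegral.norm_integral_le_of_norm_le_const
      intro y _
      exact Real.abs_cos_le_one _
    have h1' : |N - -N| = N - -N := abs_of_nonneg (by linarith)
    rw [Real.norm_eq_abs, one_mul, h1'] at h1
    rw [BN, abs_mul]
    calc |β ξ| * |∫ y in (-N)..N, Real.cos (ξ * y)| ≤ D * (N - -N) :=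
          mul_le_mul (hD ξ) h1 (abs_nonneg _) hD0
      _ ≤ _ := by nlinarith
  · intro z hz
    refine (hK.inner hN0 z hz).trans ?_
    have h1 : 1 ≤ 1 + (N - |z.re|) := by linarith
    have h2 : (1 + (N - |z.re|)) ^ j ≤ (1 + (N - |z.re|)) ^ (j + 2) :=
      pow_le_pow_right₀ h1 (by omega)
    have h3 : 0 < (1 + (N - |z.re|)) ^ j := by positivity
    have h4 := Real.exp_pos |z.im|
    apply div_le_div₀ (by positivity) _ h3 h2
    apply mul_le_mul_of_nonneg_right _ h4.le
    linarith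
  · intro z hz
    refine (hK.outer hN0 z hz).trans ?_
    have h1 : 1 ≤ 1 + (|z.re| - N) := by linarith
    have h2 : (1 + (|z.re| - N)) ^ j ≤ (1 + (|z.re| - N)) ^ (j + 2) :=
      pow_le_pow_right₀ h1 (by omega)
    have h3 : 0 < (1 + (|z.re| - N)) ^ j := by positivity
    have h4 := Real.exp_pos |z.im|
    apply div_le_div₀ (by positivity) _ h3 h2
    apply mul_le_mul_of_nonneg_right _ h4.le
    linarith

end

end Pool.Agent.Y248.SW
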